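import Pool.Agent.R937.HZ.Four
import Pool.Agent.W530.NF.Main

/-!
# Homomorphisms of `ℓ`-adic realizations over number fields of the motives generated by products of
# abelian varieties of CM type of dimension at most three

`X` is a product of any number of abelian varieties of CM type of dimension at most three over a
number field `F` (`CMAV`, all CM fields of degree at most six; no condition on the CM fields, on their
Galois closures or on the CM types, any multiplicities), and `T` is its `ℓ`-adic realization
(`Realization`): the rational Tate module `V` with the action of the Galois group, the cyclotomic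
character, the Weil pairing and the comparison map. A Frobenius element at one place of `F` above a
prime number that splits completely in the CM fields acts as the theory of complex multiplication
says (`IsFrobenius`, the formula of Shimura and Taniyama).

`𝒞` is a system of rational cohomology classes of abelian varieties of CM type (`CS`): it contains the
classes of degree zero and the Hodge classes of degree two, and it is stable under linear
combinations, cup products, pull-backs along homomorphisms and push-forwards along projections. By
the theorem of Lefschetz the classes of algebraic cycles with rational coefficients are such a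
system.

**Theorem.**

1. All Hodge classes, in all degrees, on the products of any number of abelian varieties of CM type
   of dimension at most three belong to `𝒞`, if and only if the Hodge classes of degree four on the
   products of at most four of them do (`Four 𝒞`).
2. If they do, then all homomorphisms `V ^ {⊗ s} (c) → V ^ {⊗ t} (d)` of `ℓ`-adic realizations that
   commute with a subgroup of finite index of the Galois group are combinations, with coefficients in
   `K = ℚ_ℓ`, of homomorphisms given by classes that belong to `𝒞`.

So, if the Hodge conjecture in codimension two is true for the products of at most four abelian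
varieties of CM type of dimension at most three, then the map from the question is surjective, over
all number fields, for all motives generated by the first cohomology of products of any number of
abelian varieties of CM type of dimension at most three (potentially, that is over finite
extensions; taking invariants gives the assertion over `F`).
-/

set_option autoImplicit false

namespace Pool.Agent.Results.MP_3703a7_ag.CMThreefoldProducts

open NumberField Pool.Agent.H204R3.CM Pool.Agent.W547.KB Pool.Agent.W530.NF Module
open Pool.Agent.R937.HZ (CS Four hodge_small)
open Pool.Agent.H204R3.GP (IsTateHom)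
open scoped TensorProduct

/-- All factors of `X` have dimension at most three. -/
def IsSmall (X : CMAV) : Prop := ∀ i, finrank ℚ (X.factor i).E ≤ 6

/-- All Hodge classes on products of abelian varieties of CM type of dimension at most three belong
to the system: any number of factors, all degrees. -/
def AllHodge (𝒞 : CS) : Prop :=
  ∀ (X : CMAV), IsSmall X → ∀ (κ : Type) [Finite κ] (f : X.H1 [⋀^κ]→ₗ[ℚ] ℚ),
    IsHodge X.per f → 𝒞.A X κ f

/-- The linear map `f : V ^ {⊗ s} → V ^ {⊗ t}` is a linear combination, with coefficients in `K`, of
maps given by classes `g i ∈ H^{s + t}(X ^ {s + t}, ℚ)` that belong to the system `𝒞`: of their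
components in the tensor product of the `s + t` spaces `H^1(X, ℚ)`. -/
def IsCombinationOf (𝒞 : CS) {X : CMAV} {K V : Type} [Field K] [AddCommGroup V] [Module K V]
    (T : Realization X K V) {s t : ℕ}
    (f : (⨂[K] _ : Fin s, V) →ₗ[K] (⨂[K] _ : Fin t, V)) : Prop :=
  ∃ (n : ℕ) (a : Fin n → K) (g : Fin n → (pow X (Fin s ⊕ Fin t)).H1 [⋀^Fin s ⊕ Fin t]→ₗ[ℚ] ℚ),
    (∀ i, 𝒞.A _ _ (g i)) ∧
      ∀ x y, value T f x y = ∑ i, a i * (g i (fun k => inc X k (Sum.elim x y k)) : K)

/-- All homomorphisms `V ^ {⊗ s} (c) → V ^ {⊗ t} (d)` of `ℓ`-adic realizations that commute with a
subgroup of finite index of the Galois group are linear combinations of homomorphisms given by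
classes that belong to the system `𝒞`. -/
def HomsFrom (𝒞 : CS) {X : CMAV} {K V : Type} [Field K] [AddCommGroup V] [Module K V]
    (T : Realization X K V) : Prop :=
  ∀ s t c d : ℕ, s + 2 * c = t + 2 * d →
    ∀ f : (⨂[K] _ : Fin s, V) →ₗ[K] (⨂[K] _ : Fin t, V),
      IsTateHom T.ρ T.χ c d f → IsCombinationOf 𝒞 T f

theorem homs_from (𝒞 : CS) (h4 : Four 𝒞) (X : CMAV) [hne : Nonempty X.I] (hX : IsSmall X)
    {K V : Type} [Field K] [CharZero K] [AddCommGroup V] [Module K V] (T : Realization X K V)
    (w : AbsoluteValue ℂ ℝ) (q : ℕ) (π : X.H1) (γ : T.G) (hT : IsFrobenius T w q π γ) :
    HomsFrom 𝒞 T := by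
  let _ : Algebra ℚ K := DivisionRing.toRatAlgebra
  obtain ⟨i0⟩ := hne
  intro s t c d hst f hf
  obtain ⟨n, a, g, hg, h⟩ := Pool.Agent.W530.NF.homs (X.factor i0) X T w q π γ hT s t c d hst f hf
  exact ⟨n, a, g, fun i => hodge_small h4 (pow X (Fin s ⊕ Fin t)) (fun k => hX k.2) (g i)
    ((isHodge_iff (X.factor i0) _ (g i)).2 (hg i)), h⟩

/-- Let `𝒞` be a system of classes on abelian varieties of CM type, for example the classes of
algebraic cycles. All Hodge classes on the products of abelian varieties of CM type of dimension at
most three belong to `𝒞` if and only if the ones of degree four on products of at most four factors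
do; and if they do, all homomorphisms of `ℓ`-adic realizations, over all number fields, of the
motives generated by the first cohomology of such a product `X` are combinations of homomorphisms
given by classes from `𝒞`. -/
theorem result (𝒞 : CS) :
    (AllHodge 𝒞 ↔ Four 𝒞) ∧
    (Four 𝒞 → ∀ (X : CMAV) [Nonempty X.I], IsSmall X →
      ∀ (K V : Type) [Field K] [CharZero K] [AddCommGroup V] [Module K V] (T : Realization X K V)
        (w : AbsoluteValue ℂ ℝ) (q : ℕ) (π : X.H1) (γ : T.G), IsFrobenius T w q π γ →
          HomsFrom 𝒞 T) := by
  refine ⟨⟨fun h C _ hC f hf => h C hC (Fin 4) f hf, fun h X hX κ _ f hf =>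
    hodge_small h X hX f hf⟩, ?_⟩
  intro h4 X _ hX K V _ _ _ _ T w q π γ hT
  exact homs_from 𝒞 h4 X hX T w q π γ hT

end Pool.Agent.Results.MP_3703a7_ag.CMThreefoldProducts
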