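import Pool.Agent.U190.JT.Sharp
import Pool.Agent.U190.JT.Fft

/-!
# Tate classes on products of motives with open image at ONE prime with ARBITRARY motives: exactly when
they split

Let `K` be a number field and `M_i` (`i` in a finite set `ι`) pure motives over `K` of weight `w_i` with
`ℓ`-adic realizations `ρ_i = ρ_{i,ℓ} : G_K → GL(N_i, ℚ_ℓ)` for all prime numbers `ℓ`, with nondegenerate
forms `J_i : M_i ⊗ M_i → ℚ(-w_i)` over `ℚ` (in terms of rational bases of the Betti realizations) which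
are alternating (any `N_i`), or symmetric, with `N_i ≥ 5` odd or `N_i ≥ 8` even (in the symmetric case
`M_i` is twisted such that its weight is zero). The characteristic polynomial of the geometric
Frobenius at `v ∉ S` is `P_{i,v} ∈ ℚ[X]` for all `ℓ`. By `κ = κ_ℓ` we denote the inverse of the
cyclotomic character, by `L_i` the Lie algebra of the isometry group of `J_i`; the group `G_K` acts on
`L_i` (over `ℚ_ℓ`) by conjugation, this is the realization of the direct summand `Λ² M_i(w_i)` (`J_i`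
symmetric) or `Sym² M_i(w_i)` (`J_i` alternating) of `End(M_i)`.

**Hypothesis, at ONE prime `ℓ₀`**: the Lie algebra of the joint image of `G_K` in the product of the
groups `GL(N_i, ℚ_ℓ₀)` contains the product of the `L_i`. The prime `ℓ₀` is odd in the alternating case,
does not divide `N_i - 1` (symmetric, `N_i` odd), or does not divide `(N_i - 2) (N_i - 4)` and the
valuation of `det J_i` at `ℓ₀` is even (symmetric, `N_i` even).

A continuous representation `α` of `G_K` over `ℚ_ℓ`, of ANY rank, pure or mixed, semisimple or not, is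
related to `M_i` if `L_i`, as a Lie algebra with an action of `G_K`, is a quotient of a Lie subalgebra of
the Lie algebra of the image of `α`.

**Theorem (splitting).** For all `ℓ` outside a set of natural density zero, and for EVERY `ℓ` for which all
`ρ_{i,ℓ}` are semisimple and have scalar commutants over all open subgroups, the following holds. Let `α_s`
(`s` in a finite set) be ANY continuous representations of `G_K` over `ℚ_ℓ` which are not related to the
`M_i`, for instance realizations of motives `A_s`. Then every Tate class (over any finite extension of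
`K`) in any tensor product of the `M_i` and the `A_s` is a `ℚ_ℓ`-linear combination of products `A ⊗ B`,
where

* `A` is a tensor over `ℚ`, independent of `ℓ`, killed by the Lie algebras of the forms `J_i` over `ℚ`
  (such tensors are Hodge classes, and for the motives `M_i` with the largest possible Mumford-Tate group
  all Hodge classes are of this kind), of even weight `2 j'`,
* `B` is a Tate class in the tensor product of the `A_s`;

and conversely all these combinations are Tate classes. If every `M_i` with a symmetric form occurs less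
than `N_i` times in the tensor product (no condition for alternating forms) then the tensors `A` are exactly
the linear combinations of products of the forms `J_i` over pairs of factors, so they are algebraic if the
forms `J_i : M_i ⊗ M_i → ℚ(-w_i)` are.

So, if the forms are algebraic (polarizations of abelian varieties, intersection forms of hypersurfaces),
**the Tate conjecture for all tensor products `T(M) ⊗ T'(A)` holds for `ℓ` if and only if it holds for all
tensor products `T'(A)` of the `A_s`** (with less than `N_i` factors `M_i` with symmetric forms). For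
instance, for abelian varieties `B_1, …, B_r`, pairwise not isogenous over the algebraic closure, with
endomorphism ring `ℤ` and of odd dimension or dimension 2 or 6, the hypothesis below holds for all `ℓ₀` by a
theorem of Serre, and the conditions on `ρ_{i,ℓ}` hold for ALL `ℓ` by Faltings; so the Tate conjecture for
`B_1^{n_1} × … × B_r^{n_r} × Y` is equivalent to the Tate conjecture for `Y`, for ANY smooth projective
variety `Y` whose cohomology is not related to the `B_i`.

**Theorem (sharpness).** If `α` is related to `M_i` and `End(α)` is a semisimple representation (as is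
conjectured for all pure motives) then there is a Tate class over `K` itself in the tensor product of two
copies of `M_i`, of `α` and of its dual, which is not a combination of such products. So for families
closed under duals with semisimple `End(α_s)` the Tate classes of all tensor products split if and only if
no `α_s` is related to some `M_i`.

**Theorem (criteria).** If `α` is related to `M_i` then it is not abelian over a finite extension of `K`
(so Artin motives and motives of CM type are never related), and for ALL `σ` in `G_K` the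
characteristic polynomial of `σ` on `L_i` divides the one of `σ` on `End(α)`; in particular
`dim L_i ≤ rk(α)^2` (so `α` is unrelated to all motives of large rank). So ONE element `σ` with a polynomial which does not divide the other is enough, for
instance ONE Frobenius element at a prime `v`: if `x_1, …` are the roots of `P_{i,v}` and `z_1, …` those of
the Frobenius polynomial of the motive `A_s`, these two polynomials have the roots
`x_a x_b / N(v)^{w_i}` (`a < b`, or `a ≤ b` in the alternating case) and `z_c / z_d`; this is a condition on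
complex numbers, the same for all `ℓ`.

So the part of Q1 on all homomorphisms between motives `T(M) ⊗ T'(A)` in the tensor category generated
by the `M_i` and by ARBITRARY motives `A_s` is reduced, for these `ℓ`, to the tensor category generated by
the `A_s` and to the rational tensors `A`, unless the adjoint motive `L_i` of some `M_i` is a subquotient of
some `End(A_s)` (in which case the Tate conjecture itself predicts a correspondence which relates
`M_i` to `A_s`).

## Proof

The theorem `several` of the starting repository (by helper932 and others, not used there) gives the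
full joint Lie algebra of the `ρ_{i,ℓ}` for the primes `ℓ` in the theorem. New (`Pool/Agent/U190/JS`,
`Pool/Agent/U190/JT`): the joint Lie algebra `𝔤` of all `ρ_{i,ℓ}`, `α_s` and `κ` contains `𝔰 × 0`, where `𝔰`
is the product of the `L_i`. Indeed `𝔤` is stable under the conjugation by `G_K`; by the theorem of
Goursat for the simple factors `L_i` (by induction on the number of the `α_s`) otherwise some `L_i`
would be an equivariant quotient of a Lie subalgebra of the Lie algebra of some `α_s`. Hence the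
components of a Tate class in the directions of the `A_s` are killed by `𝔰`, so they vanish if the weight
of `T(M)` is odd (an element of the symplectic Lie algebra with odd eigenvalues), and in general an
argument with a basis of the rational killed tensors gives the decomposition. Sharpness: if `End(α)` is
semisimple then a relation gives an equivariant embedding `Ψ` of `L_i` in `End(α)`, and the form
`(v, v', u, u') ↦ ⟨u', Ψ((v v'ᵀ ∓ v' vᵀ) J_i) u⟩` is a Tate class which is not killed by `L_i`, since `L_i` is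
not commutative. The killed tensors are products of forms by the first fundamental theorem for products
of orthogonal and symplectic Lie algebras of the starting repository (`TH125/Nod`), in a form for words in
several motives. For the criteria the characteristic polynomial on a quotient of a stable subspace
divides the one on the space.
-/

set_option autoImplicit false

namespace Pool.Agent.Results.MP_3703a7_ag.ExactSplitting

open Matrix Polynomial Filter Topology NumberField IsDedekindDomain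

/-- the absolute Galois group of `K`, with its profinite (Krull) topology -/
abbrev AbsoluteGaloisGroup (K : Type) [Field K] : Type := Gal(AlgebraicClosure K/K)

/-- `σ` is an (arithmetic) Frobenius element at the prime `v` of the number field `K`: for some prime
`Q` of the algebraic closure above `v` it acts on the residue field as `x ↦ x ^ N(v)` -/
def IsFrobenius {K : Type} [Field K] [NumberField K] (v : HeightOneSpectrum (𝓞 K))
    (σ : AbsoluteGaloisGroup K) : Prop :=
  ∃ Q : Ideal (𝓞 (AlgebraicClosure K)), Q.IsMaximal ∧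
    Q.comap (algebraMap (𝓞 K) (𝓞 (AlgebraicClosure K))) = v.asIdeal ∧
    ∀ x : 𝓞 (AlgebraicClosure K), σ • x - x ^ Ideal.absNorm v.asIdeal ∈ Q

/-- the set `A` of prime numbers has natural density zero -/
def HasDensityZero (A : Set ℕ) : Prop :=
  Tendsto (fun n : ℕ => (Nat.card {ℓ : ℕ // ℓ ≤ n ∧ ℓ ∈ A} : ℝ) / (Nat.primeCounting n : ℝ))
    atTop (𝓝 0)

/-- the rational matrix as a matrix over the `ℓ`-adic numbers -/
noncomputable def adic (ℓ : ℕ) [Fact ℓ.Prime] {N : ℕ} (J : Matrix (Fin N) (Fin N) ℚ) :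
    Matrix (Fin N) (Fin N) ℚ_[ℓ] :=
  J.map (algebraMap ℚ ℚ_[ℓ])

/-- the form is nondegenerate and alternating, or symmetric of odd rank at least `5` or even rank at
least `8` -/
def IsAdmissible {N : ℕ} (J : Matrix (Fin N) (Fin N) ℚ) : Prop :=
  J.det ≠ 0 ∧ ((Jᵀ = -J ∧ 0 < N) ∨ (Jᵀ = J ∧ Odd N ∧ 5 ≤ N) ∨ (Jᵀ = J ∧ Even N ∧ 8 ≤ N))

/-- the prime number `ℓ` is suitable for the form -/
def IsSuitable (ℓ : ℕ) [Fact ℓ.Prime] {N : ℕ} (J : Matrix (Fin N) (Fin N) ℚ) : Prop :=
  (Jᵀ = -J → ℓ ≠ 2) ∧ (Jᵀ = J → Odd N → ¬ ℓ ∣ N - 1) ∧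
    (Jᵀ = J → Even N → ¬ ℓ ∣ (N - 2) * (N - 4) ∧ Even (Padic.valuation (adic ℓ J).det))

section systems

variable {K : Type} [Field K] [NumberField K]

/-- `κ` is continuous with the value `N(v)` at the geometric Frobenius elements at `v ∉ S`, `v ∤ ℓ` -/
def IsInverseCyclotomic (S : Set (HeightOneSpectrum (𝓞 K))) (ℓ : ℕ) [Fact ℓ.Prime]
    (κ : AbsoluteGaloisGroup K →* ℚ_[ℓ]) : Prop :=
  Continuous κ ∧ ∀ v ∉ S, (ℓ : 𝓞 K) ∉ v.asIdeal → ∀ σ : AbsoluteGaloisGroup K, IsFrobenius v σ →
    κ σ⁻¹ = (Ideal.absNorm v.asIdeal : ℚ_[ℓ])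

/-- `ρ` is continuous, multiplies the form `J` by `κ ^ w`, and for `v ∉ S`, `v ∤ ℓ` the characteristic
polynomial of the geometric Frobenius elements at `v` is `P v` -/
def IsRealization (S : Set (HeightOneSpectrum (𝓞 K))) (ℓ : ℕ) [Fact ℓ.Prime]
    (κ : AbsoluteGaloisGroup K →* ℚ_[ℓ]) {N : ℕ} (J : Matrix (Fin N) (Fin N) ℚ) (w : ℕ)
    (P : HeightOneSpectrum (𝓞 K) → ℚ[X])
    (ρ : AbsoluteGaloisGroup K →* Matrix (Fin N) (Fin N) ℚ_[ℓ]) : Prop :=
  Continuous ρ ∧ (∀ g, (ρ g)ᵀ * adic ℓ J * ρ g = κ g ^ w • adic ℓ J) ∧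
    ∀ v ∉ S, (ℓ : 𝓞 K) ∉ v.asIdeal → ∀ σ : AbsoluteGaloisGroup K, IsFrobenius v σ →
      (ρ σ⁻¹).charpoly = (P v).map (algebraMap ℚ ℚ_[ℓ])

end systems

section representations

variable {G : Type} [Group G] [TopologicalSpace G]

/-- each family of matrices `X i` with `X iᵀ J i + J i X i = 0` is in the Lie algebra of the joint image:
for some elements `σ n` of `G` the matrices `(ρ i (σ n) - 1) / ℓ ^ n` converge to `X i` for all `i` -/
def HasFullLieAlgebra {ι : Type} {N : ι → ℕ} (ℓ : ℕ) [Fact ℓ.Prime]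
    (J : ∀ i, Matrix (Fin (N i)) (Fin (N i)) ℚ)
    (ρ : ∀ i, G →* Matrix (Fin (N i)) (Fin (N i)) ℚ_[ℓ]) : Prop :=
  ∀ X : ∀ i, Matrix (Fin (N i)) (Fin (N i)) ℚ_[ℓ],
    (∀ i, (X i)ᵀ * adic ℓ (J i) + adic ℓ (J i) * X i = 0) →
    ∃ σ : ℕ → G, ∀ i, Tendsto (fun n : ℕ => ((ℓ : ℚ_[ℓ]) ^ n)⁻¹ • (ρ i (σ n) - 1)) atTop (𝓝 (X i))

/-- every stable subspace has a stable complement -/
def IsSemisimple {F : Type} [Field F] {N : ℕ} (ρ : G →* Matrix (Fin N) (Fin N) F) : Prop :=
  ∀ W : Submodule F (Fin N → F), (∀ σ, ∀ w ∈ W, ρ σ *ᵥ w ∈ W) →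
    ∃ W' : Submodule F (Fin N → F), IsCompl W W' ∧ ∀ σ, ∀ w ∈ W', ρ σ *ᵥ w ∈ W'

/-- every matrix which commutes with an open subgroup is scalar -/
def HasScalarCommutants {F : Type} [Field F] {N : ℕ} (ρ : G →* Matrix (Fin N) (Fin N) F) : Prop :=
  ∀ (A : Matrix (Fin N) (Fin N) F) (U : Subgroup G), IsOpen (U : Set G) →
    (∀ σ ∈ U, A * ρ σ = ρ σ * A) → ∃ c : F, A = c • (1 : Matrix (Fin N) (Fin N) F)

/-- the restriction to an open subgroup is commutative -/
def IsPotentiallyAbelian {F : Type} [Field F] {n : ℕ} (α : G →* Matrix (Fin n) (Fin n) F) : Prop :=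
  ∃ U : Subgroup G, IsOpen (U : Set G) ∧ ∀ σ ∈ U, ∀ τ ∈ U, α σ * α τ = α τ * α σ

/-- the Lie algebra of the form: the matrices `X` with `Xᵀ J + J X = 0` -/
def lieAlgebra {F : Type} [Field F] {N : ℕ} (J : Matrix (Fin N) (Fin N) F) :
    Submodule F (Matrix (Fin N) (Fin N) F) where
  carrier := {X | Xᵀ * J + J * X = 0}
  add_mem' := fun {X Y} hX hY => (Pool.Agent.R932.PO.spSub J).add_mem (x := X) (y := Y) hX hY
  zero_mem' := (Pool.Agent.R932.PO.spSub J).zero_mem
  smul_mem' := fun c {X} hX => (Pool.Agent.R932.PO.spSub J).smul_mem c (x := X) hX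

/-- `X` is in the Lie algebra of the image of `α`: the matrices `(α (σ n) - 1) / ℓ ^ n` converge to `X`
for some elements `σ n` of the group -/
def IsTangent (ℓ : ℕ) [Fact ℓ.Prime] {n : ℕ} (α : G →* Matrix (Fin n) (Fin n) ℚ_[ℓ])
    (X : Matrix (Fin n) (Fin n) ℚ_[ℓ]) : Prop :=
  ∃ σ : ℕ → G, Tendsto (fun k : ℕ => ((ℓ : ℚ_[ℓ]) ^ k)⁻¹ • (α (σ k) - 1)) atTop (𝓝 X)

/-- There are a Lie subalgebra `𝔞` of the Lie algebra of the image of `α`, stable under the conjugation
by `α`, and a surjective homomorphism `Θ` of Lie algebras from `𝔞` to the Lie algebra of the form `J`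
which is compatible with the conjugation by `α` and by `ρ`. -/
def IsRelated (ℓ : ℕ) [Fact ℓ.Prime] {N n : ℕ} (J : Matrix (Fin N) (Fin N) ℚ)
    (ρ : G →* Matrix (Fin N) (Fin N) ℚ_[ℓ]) (α : G →* Matrix (Fin n) (Fin n) ℚ_[ℓ]) : Prop :=
  ∃ (𝔞 : Submodule ℚ_[ℓ] (Matrix (Fin n) (Fin n) ℚ_[ℓ])) (Θ : 𝔞 →ₗ[ℚ_[ℓ]] lieAlgebra (adic ℓ J)),
    Function.Surjective Θ ∧ (∀ X ∈ 𝔞, IsTangent ℓ α X) ∧
    (∀ X Y : 𝔞, ∃ Z : 𝔞, Z.val = X.val * Y.val - Y.val * X.val ∧
      (Θ Z).val = (Θ X).val * (Θ Y).val - (Θ Y).val * (Θ X).val) ∧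
    ∀ (σ : G) (X : 𝔞), ∃ Z : 𝔞, Z.val = α σ * X.val * α σ⁻¹ ∧
      (Θ Z).val = ρ σ * (Θ X).val * ρ σ⁻¹

/-- the value of the multilinear form with the coefficients `T` -/
def value {F : Type} [Field F] {k : ℕ} {M : Fin k → ℕ} (T : (∀ t, Fin (M t)) → F)
    (v : ∀ t, Fin (M t) → F) : F :=
  ∑ r, T r * ∏ t, v t (r t)

/-- the value of the multilinear form in `k + m` vectors with the coefficients `T` -/
def value₂ {F : Type} [Field F] {k m : ℕ} {M : Fin k → ℕ} {D : Fin m → ℕ}
    (T : (∀ t, Fin (M t)) → (∀ t, Fin (D t)) → F) (v : ∀ t, Fin (M t) → F)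
    (u : ∀ t, Fin (D t) → F) : F :=
  ∑ s, value (fun r => T r s) v * ∏ t, u t (s t)

/-- the form with the coefficients `T` on the representations `ρ (a t)` and `α (b t)` is a Tate class of
weight `2 j` over some finite extension: an open subgroup multiplies it by `κ ^ j` -/
def IsTateClass {F : Type} [Field F] {ι ι' : Type} {N : ι → ℕ} {d : ι' → ℕ}
    (ρ : ∀ i, G →* Matrix (Fin (N i)) (Fin (N i)) F)
    (α : ∀ s, G →* Matrix (Fin (d s)) (Fin (d s)) F) (κ : G →* F) {k m : ℕ}
    (a : Fin k → ι) (b : Fin m → ι') (j : ℕ)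
    (T : (∀ t, Fin (N (a t))) → (∀ t, Fin (d (b t))) → F) : Prop :=
  ∃ U : Subgroup G, IsOpen (U : Set G) ∧ ∀ σ ∈ U, ∀ (v : ∀ t, Fin (N (a t)) → F)
    (u : ∀ t, Fin (d (b t)) → F),
    value₂ T (fun t => ρ (a t) σ *ᵥ v t) (fun t => α (b t) σ *ᵥ u t) = κ σ ^ j * value₂ T v u

/-- the form with the coefficients `B` on the representations `α (b t)` is a Tate class of weight
`2 (j - j')`: an open subgroup multiplies it by `κ ^ (j - j')` -/
def IsTateClassOf {F : Type} [Field F] {ι' : Type} {d : ι' → ℕ}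
    (α : ∀ s, G →* Matrix (Fin (d s)) (Fin (d s)) F) (κ : G →* F) {m : ℕ}
    (b : Fin m → ι') (j j' : ℕ) (B : (∀ t, Fin (d (b t))) → F) : Prop :=
  ∃ U : Subgroup G, IsOpen (U : Set G) ∧ ∀ σ ∈ U, ∀ u : ∀ t, Fin (d (b t)) → F,
    κ σ ^ j' * value B (fun t => α (b t) σ *ᵥ u t) = κ σ ^ j * value B u

end representations

/-- the tensor `A` over `ℚ` is killed by the Lie algebras of the forms: for all families of rational
matrices `X i` with `X iᵀ J i + J i X i = 0` the derivative of the multilinear form in the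
direction `X` is zero -/
def IsKilled {ι : Type} {N : ι → ℕ} (J : ∀ i, Matrix (Fin (N i)) (Fin (N i)) ℚ)
    {k : ℕ} (a : Fin k → ι) (A : (∀ t, Fin (N (a t))) → ℚ) : Prop :=
  ∀ X : ∀ i, Matrix (Fin (N i)) (Fin (N i)) ℚ, (∀ i, (X i)ᵀ * J i + J i * X i = 0) →
    ∀ v : ∀ t, Fin (N (a t)) → ℚ, ∑ t, value A (Function.update v t (X (a t) *ᵥ v t)) = 0

open Classical in
/-- the product of the values of the forms over the pairs of the perfect matching `e` of the positions
(zero if two positions of a pair belong to different motives) -/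
noncomputable def formProduct {ι : Type} {N : ι → ℕ} (J : ∀ i, Matrix (Fin (N i)) (Fin (N i)) ℚ)
    {k : ℕ} (a : Fin k → ι) {m : ℕ} (e : Fin m × Fin 2 ≃ Fin k) : (∀ t, Fin (N (a t))) → ℚ :=
  fun r => ∏ l, blockDiagonal' J ⟨a (e (l, 0)), r (e (l, 0))⟩ ⟨a (e (l, 1)), r (e (l, 1))⟩

/-- In all tensor products in which each motive with a symmetric form occurs less often than its rank the
killed tensors are the linear combinations of the products of the forms. -/
def KilledTensorsAreForms {ι : Type} {N : ι → ℕ} (J : ∀ i, Matrix (Fin (N i)) (Fin (N i)) ℚ) :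
    Prop :=
  ∀ (k : ℕ) (a : Fin k → ι), (∀ i, (J i)ᵀ = J i → Nat.card {t // a t = i} < N i) →
    ∀ A : (∀ t, Fin (N (a t))) → ℚ, IsKilled J a A ↔ A ∈ Submodule.span ℚ
      {B | ∃ (m : ℕ) (e : Fin m × Fin 2 ≃ Fin k), B = formProduct J a e}

/-- the product of a rational tensor and a tensor over `ℚ_ℓ` -/
noncomputable def product (ℓ : ℕ) [Fact ℓ.Prime] {k m : ℕ} {M : Fin k → ℕ} {D : Fin m → ℕ}
    (A : (∀ t, Fin (M t)) → ℚ) (B : (∀ t, Fin (D t)) → ℚ_[ℓ]) :
    (∀ t, Fin (M t)) → (∀ t, Fin (D t)) → ℚ_[ℓ] :=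
  fun r s => (A r : ℚ_[ℓ]) * B s

section statement

variable {G : Type} [Group G] [TopologicalSpace G] {ι : Type} {N : ι → ℕ}

/-- the products of rational killed tensors of weight `2 j'` with Tate classes of weight
`2 (j - j')` -/
def products (J : ∀ i, Matrix (Fin (N i)) (Fin (N i)) ℚ) (w : ι → ℕ) (ℓ : ℕ) [Fact ℓ.Prime]
    (κ : G →* ℚ_[ℓ]) {ι' : Type} {d : ι' → ℕ}
    (α : ∀ s, G →* Matrix (Fin (d s)) (Fin (d s)) ℚ_[ℓ]) {k m : ℕ} (a : Fin k → ι)
    (b : Fin m → ι') (j : ℕ) : Set ((∀ t, Fin (N (a t))) → (∀ t, Fin (d (b t))) → ℚ_[ℓ]) :=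
  {T | ∃ (A : (∀ t, Fin (N (a t))) → ℚ) (B : (∀ t, Fin (d (b t))) → ℚ_[ℓ]) (j' : ℕ),
    IsKilled J a A ∧ ∑ t, w (a t) = 2 * j' ∧ IsTateClassOf α κ b j j' B ∧ T = product ℓ A B}

/-- For ALL finite families of continuous representations `α s` which are not related to the `ρ i`: the
Tate classes in all tensor products of the `ρ i` and the `α s` are the linear combinations of the
products of rational killed tensors and Tate classes of the `α s`. -/
def TateClassesAreProducts (J : ∀ i, Matrix (Fin (N i)) (Fin (N i)) ℚ) (w : ι → ℕ) (ℓ : ℕ)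
    [Fact ℓ.Prime] (κ : G →* ℚ_[ℓ]) (ρ : ∀ i, G →* Matrix (Fin (N i)) (Fin (N i)) ℚ_[ℓ]) : Prop :=
  ∀ (ι' : Type) [Fintype ι'] (d : ι' → ℕ) (α : ∀ s, G →* Matrix (Fin (d s)) (Fin (d s)) ℚ_[ℓ]),
    (∀ s, Continuous (α s)) →
    (∀ s i, ¬ IsRelated ℓ (J i) (ρ i) (α s)) →
    ∀ (k m : ℕ) (a : Fin k → ι) (b : Fin m → ι') (j : ℕ)
      (T : (∀ t, Fin (N (a t))) → (∀ t, Fin (d (b t))) → ℚ_[ℓ]),
      IsTateClass ρ α κ a b j T ↔ T ∈ Submodule.span ℚ_[ℓ] (products J w ℓ κ α a b j)



/-- the characteristic polynomial of `σ` on the Lie algebra of the form divides the one of `σ` on the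
matrices of size `n` (acting by conjugation) -/
def PolynomialDivides (ℓ : ℕ) [Fact ℓ.Prime] {N n : ℕ} (J : Matrix (Fin N) (Fin N) ℚ)
    (ρ : G →* Matrix (Fin N) (Fin N) ℚ_[ℓ]) (α : G →* Matrix (Fin n) (Fin n) ℚ_[ℓ]) (σ : G) : Prop :=
  ∀ (f : Module.End ℚ_[ℓ] (lieAlgebra (adic ℓ J)))
    (g : Module.End ℚ_[ℓ] (Matrix (Fin n) (Fin n) ℚ_[ℓ])),
    (∀ X, (f X).val = ρ σ * X.val * ρ σ⁻¹) → (∀ Y, g Y = α σ * Y * α σ⁻¹) →
    LinearMap.charpoly f ∣ LinearMap.charpoly g

/-- `End(α)` is semisimple: every subspace of the space of matrices which is stable under the conjugation by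
`α` has a stable complement -/
def EndIsSemisimple {ℓ : ℕ} [Fact ℓ.Prime] {n : ℕ} (α : G →* Matrix (Fin n) (Fin n) ℚ_[ℓ]) : Prop :=
  ∀ W : Submodule ℚ_[ℓ] (Matrix (Fin n) (Fin n) ℚ_[ℓ]), (∀ σ, ∀ X ∈ W, α σ * X * α σ⁻¹ ∈ W) →
    ∃ W' : Submodule ℚ_[ℓ] (Matrix (Fin n) (Fin n) ℚ_[ℓ]), IsCompl W W' ∧
      ∀ σ, ∀ X ∈ W', α σ * X * α σ⁻¹ ∈ W'

/-- the dual representation -/
noncomputable def dual {ℓ : ℕ} [Fact ℓ.Prime] {n : ℕ} (α : G →* Matrix (Fin n) (Fin n) ℚ_[ℓ]) :
    G →* Matrix (Fin n) (Fin n) ℚ_[ℓ] where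
  toFun σ := (α σ⁻¹)ᵀ
  map_one' := by rw [inv_one, map_one, transpose_one]
  map_mul' σ τ := by rw [_root_.mul_inv_rev, map_mul, transpose_mul]

/-- In the tensor product of two copies of `ρ i`, of `α` and of its dual there is a Tate class of weight
`2 w i` over the base field itself which is not a combination of products of rational killed tensors
and Tate classes of `α` and its dual. -/
def HasExtraTateClass (J : ∀ i, Matrix (Fin (N i)) (Fin (N i)) ℚ) (w : ι → ℕ) (ℓ : ℕ)
    [Fact ℓ.Prime] (κ : G →* ℚ_[ℓ]) (ρ : ∀ i, G →* Matrix (Fin (N i)) (Fin (N i)) ℚ_[ℓ]) (i : ι)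
    {n : ℕ} (α : G →* Matrix (Fin n) (Fin n) ℚ_[ℓ]) : Prop :=
  ∃ T : (Fin 2 → Fin (N i)) → (Fin 2 → Fin n) → ℚ_[ℓ],
    (∀ (σ : G) (v : Fin 2 → Fin (N i) → ℚ_[ℓ]) (u : Fin 2 → Fin n → ℚ_[ℓ]),
      value₂ (M := fun _ : Fin 2 => N i) (D := fun _ : Fin 2 => n) T (fun t => ρ i σ *ᵥ v t)
        (fun t => (![α, dual α] t) σ *ᵥ u t) =
      κ σ ^ w i * value₂ (M := fun _ : Fin 2 => N i) (D := fun _ : Fin 2 => n) T v u) ∧
    T ∉ Submodule.span ℚ_[ℓ] (products (d := fun _ : Fin 2 => n) J w ℓ κ ![α, dual α]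
      (fun _ : Fin 2 => i) (fun t : Fin 2 => t) (w i))

end statement

/-- **Tate classes on products of motives with open image at one prime with arbitrary motives split, for
100 percent of the primes and for all primes at which the first motives have semisimple realizations
with scalar commutants, exactly when the other motives are not related to the first ones; and the
criteria for this. The rational tensors are combinations of products of the forms.** -/
theorem result {K : Type} [Field K] [NumberField K] {ι : Type} [Fintype ι] {N : ι → ℕ}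
    (S : Set (HeightOneSpectrum (𝓞 K))) (hS : S.Finite)
    (κ : ∀ (ℓ : ℕ) [Fact ℓ.Prime], AbsoluteGaloisGroup K →* ℚ_[ℓ])
    (hκ : ∀ (ℓ : ℕ) [Fact ℓ.Prime], IsInverseCyclotomic S ℓ (κ ℓ))
    (J : ∀ i, Matrix (Fin (N i)) (Fin (N i)) ℚ) (hJ : ∀ i, IsAdmissible (J i))
    (w : ι → ℕ) (hw : ∀ i, (J i)ᵀ = J i → w i = 0) (P : ι → HeightOneSpectrum (𝓞 K) → ℚ[X])
    (ρ : ∀ (i : ι) (ℓ : ℕ) [Fact ℓ.Prime],
      AbsoluteGaloisGroup K →* Matrix (Fin (N i)) (Fin (N i)) ℚ_[ℓ])
    (hρ : ∀ (i : ι) (ℓ : ℕ) [Fact ℓ.Prime], IsRealization S ℓ (κ ℓ) (J i) (w i) (P i) (ρ i ℓ))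
    (ℓ₀ : ℕ) [Fact ℓ₀.Prime] (hℓ₀ : ∀ i, IsSuitable ℓ₀ (J i))
    (hfull : HasFullLieAlgebra ℓ₀ J (fun i => ρ i ℓ₀)) :
    (HasDensityZero {ℓ | ∃ _ : Fact ℓ.Prime,
      ¬ TateClassesAreProducts J w ℓ (κ ℓ) (fun i => ρ i ℓ)} ∧
    ∀ (ℓ : ℕ) [Fact ℓ.Prime], (∀ i, IsSemisimple (ρ i ℓ)) → (∀ i, HasScalarCommutants (ρ i ℓ)) →
      TateClassesAreProducts J w ℓ (κ ℓ) (fun i => ρ i ℓ)) ∧
    KilledTensorsAreForms J ∧
    ∀ (ℓ : ℕ) [Fact ℓ.Prime] (i : ι) (n : ℕ)
      (α : AbsoluteGaloisGroup K →* Matrix (Fin n) (Fin n) ℚ_[ℓ]), Continuous α →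
      IsRelated ℓ (J i) (ρ i ℓ) α →
      (EndIsSemisimple α → HasExtraTateClass J w ℓ (κ ℓ) (fun i => ρ i ℓ) i α) ∧
      ¬ IsPotentiallyAbelian α ∧ ∀ σ, PolynomialDivides ℓ (J i) (ρ i ℓ) α σ := by
  classical
  have hkind : ∀ i, ∃ kd : Pool.Agent.R932.PO.Kind, Pool.Agent.R932.PO.Fits kd (J i) ∧
      Pool.Agent.R932.PO.Allows kd (N i) ℓ₀ (Pool.Agent.R932.PO.JL J ℓ₀ i) := by
    intro i
    rcases (hJ i).2 with h | h | h
    · exact ⟨.sym, h, (hℓ₀ i).1 h.1⟩
    · exact ⟨.odd, h, (hℓ₀ i).2.1 h.1 h.2.1⟩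
    · exact ⟨.even, h, (hℓ₀ i).2.2 h.1 h.2.1⟩
  choose kd hfit hal using hkind
  obtain ⟨h1, h2⟩ := Pool.Agent.U190.JT.main' hS J hfit (fun i => (hJ i).1) hw κ
    (fun ℓ _ => (hκ ℓ).1) (fun ℓ _ => (hκ ℓ).2) ρ (fun i ℓ _ => (hρ i ℓ).1)
    (fun i ℓ _ => (hρ i ℓ).2.1) (fun i ℓ _ => (hρ i ℓ).2.2) ℓ₀ hal hfull
  have h3 : ∀ (ℓ : ℕ) [Fact ℓ.Prime],
      Pool.Agent.U190.JT.Concl' J w ℓ (κ ℓ) (fun i => ρ i ℓ) →
      TateClassesAreProducts J w ℓ (κ ℓ) (fun i => ρ i ℓ) :=
    fun ℓ _ h ι' _ d α hα hr => h ι' d α hα fun s => Or.inl (hr s)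
  refine ⟨⟨Pool.Agent.Y142.ZI.DensityZero.mono h1 ?_, fun ℓ _ h4 h5 => h3 ℓ (h2 ℓ h4 h5)⟩,
    fun k a hc A => ⟨fun hA => ?_, fun hA => ?_⟩,
    fun ℓ _ i n α hα hrel => ⟨fun hss => ?_, fun hab => ?_, fun σ f g => ?_⟩⟩
  · rintro ℓ ⟨hp, hno⟩
    exact ⟨hp, fun h => hno (h3 ℓ h)⟩
  · refine Pool.Agent.U190.JT.killed_fft (fun i => ?_) (fun i => (hJ i).1) hA fun i hi => ?_
    · rcases (hJ i).2 with h | h | h
      · exact Or.inr h.1
      · exact Or.inl h.1
      · exact Or.inl h.1
    · have h4 := hc i hi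
      rwa [Nat.card_eq_fintype_card, Fintype.card_subtype] at h4
  · exact Pool.Agent.U190.JT.killed_span hA
  · obtain ⟨T, hT, hT'⟩ := Pool.Agent.U190.JT.extra (w := w)
      (fun i => (hfit i).isForm (hJ i).1) (fun i => (hfit i).pos)
      (fun i g => (hρ i ℓ).2.1 g) hrel hss
    exact ⟨T, hT, hT' (w i)⟩
  · obtain ⟨U, hU, hc⟩ := hab
    exact Pool.Agent.U190.JT.not_related_of_comm
      (((hfit i).map (algebraMap ℚ ℚ_[ℓ])).isForm
        (Pool.Agent.R932.PO.det_map_ne (algebraMap ℚ ℚ_[ℓ]) (hJ i).1)) (hfit i).pos hα hU hc hrel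
  · exact Pool.Agent.U190.JT.related_dvd hrel σ f g

end Pool.Agent.Results.MP_3703a7_ag.ExactSplitting
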