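import Pool.Agent.U222.SL.Mo9

/-!
# The Tate conjecture for homomorphisms between the motives of products of arbitrary varieties with
cyclic coverings of large prime degrees

Let `F` be a number field with the absolute Galois group `Γ`, and let `X_1, …, X_r` be smooth projective
models over `F`, of any dimensions `n_i ≥ 1`, of the cyclic coverings

  `w ^ N_i = ∏_k l_{i,k} (x) ^ a_{i,k}`   (`a_{i,k} ≥ 1`, `∑_k a_{i,k} = A_i ≥ 2`)

of the affine space of dimension `n_i`, branched along hyperplanes (any arrangement of hyperplanes which
together with the hyperplane at infinity have no common point), where the `N_i` are different prime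
numbers. Let `Z` and `Z'` be **any** two smooth projective varieties over `F`, of any dimensions. Let all
Betti numbers of `Z × Z'` be at most `2 b + 1`, and

  `N_i > A_i ^ 2 b + A_i` for all `i`.

Let `V` and `V'` be products

  `V = X_{i_1} × ⋯ × X_{i_s} × Z`,   `V' = X_{j_1} × ⋯ × X_{j_t} × Z'`

for two disjoint sets of indices. Let `F'` run over the finite extensions of `F`, and `M`, `M'` over the
pure motives over `F'` which are direct summands of `h(V)(m)`, and of `h(V')(m')`, for all integers `m`,
`m'` (`M = (V, p, m)` with an idempotent correspondence `p` over `F'`).

**Theorem.** The map
`ρ : Hom(M, M') ⊗ ℚ_ℓ → Hom_{G_{F'}}(M_ℓ, M'_ℓ)` is surjective (injective, bijective) for all these `F'`,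
`M` and `M'` if and only if it is surjective (injective, bijective) for all `F'` and all direct summands
`M` of `h(Z)(m)` and `M'` of `h(Z')(m')`.

In particular `ρ` is injective for all these `M`, `M'` if homological and numerical equivalence coincide
on `Z × Z'`, and `ρ` is bijective for all these `M`, `M'` if moreover the cohomology of `Z × Z'` is
generated by the classes of algebraic cycles (for example if `Z` and `Z'` are points, projective spaces,
Grassmannians or toric varieties). It is also bijective for instance if `Z` and `Z'` are any two curves
(theorem of Faltings).

Both parts of the problem (injectivity and surjectivity) are treated, for *all* homomorphisms of the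
`ℓ`-adic realizations (of all weights), over all finite extensions, and there is no condition on the
varieties `Z`, `Z'` but on the size of their Betti numbers compared with the prime numbers `N_i`.

**The formal setting.** `W` is a Weil cohomology theory for the varieties over an algebraic closure of
`F` (étale cohomology with coefficients in an algebraic closure `K` of `ℚ_ℓ`; the maps over `ℚ_ℓ` are
bijective if and only if their extensions to `K` are); a `GVar` is a variety with an action of `Γ` on its
cohomology algebra, `GaloisClass` states the formal properties of the Galois action on the cohomology and
on the classes of algebraic cycles; a subgroup `Δ` of finite index is the Galois group of `F'`. A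
correspondence over `F'`, up to homological equivalence, is a correspondence over the algebraic closure
whose class is fixed by `Δ`. The morphisms of motives are the operators on the cohomology given by
correspondences (`correspondences`, `Motive`, `Hom`, `rho`, `IsGaloisHom`), `TateFor t χ A B` is the
injectivity (`t = true`), respectively the surjectivity (`t = false`) of `ρ` for all `F'` and all direct
summands `M` of `h(A)(m)`, `M'` of `h(B)(m')`. `σ` is a Frobenius element at one
place of `F` with residue field `κ` and residue characteristic `c ≡ 1` modulo all `N_i` where the `X_i`
have good reduction (there are infinitely many such places by the theorem of Dirichlet); the `C i` are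
the reductions of the coverings.

The hypothesis `base` of `IsSystem` (`IsFewBase`) on the eigenvalues of `σ` on the cohomology of
`P = Z × Z'`: for every eigenvalue `β`, of weight `d`,
* either the minimal polynomial of `β` over `ℚ` has at most `2 b + 1` irreducible factors over the field
  of the roots of unity of order `N = ∏ N_i` (in particular if its degree is at most `2 b + 1`),
* or at most `b` of the conjugates of `β` have a slope smaller than `(d - λ) / 2`, where `λ < n_i` for
  all `i`.
The last part of the theorem states that the condition is satisfied if the eigenvalues are pure, of degree
at most `2 b + 1` or of level at most `λ`.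

**The proof.** Let `i` be an index, `S_i` the set of the eigenvalues of the Frobenius `σ` on the part
`T_i` without invariants of the cohomology of `X_i`. By the theorems on the slopes (see the sibling
results below) no number `(∏ α_i) q ^ e β`, with `α_i ∈ S_i` for the indices `i` in a nonempty set and an
eigenvalue `β` of `σ` on the cohomology of `Z × Z'`, is a power of `q` times a root of unity. Using
Poincaré duality for `V'` one finds that there are no homomorphisms, equivariant under a subgroup of
finite index, up to a twist, from `T_i ⊗ H(B)` to `H(B')` and from `H(B')` to `T_i ⊗ H(B)`, for the
partial products `B` of `V`, and `B'` of `V'`. With dual bases of the algebraic classes of `X_i` (`D` is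
true for `X_i`) every equivariant operator `u : H(X_i × B) → H(B')` is the sum of the operators
`(u ∘ inj a_j) ∘ cof b_j`, where `inj a : H(B) → H(X_i × B)` is the product with an algebraic class `a`,
and `cof b` is the coefficient; both are algebraic. So `H(X_i × B)` behaves for all such homomorphisms as a
sum of twists of `H(B)`, for the algebraic operators and for the equivariant ones. The homogeneous parts
of algebraic operators are separated by the action of the Frobenius on the twists, and operators over
`F'` are obtained by averages.

**Relation to other results.** The slopes are those of the sibling hand-ins `LargePrimeCoverings` of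
helper222 for `MP_950c68_ag`, `MP_af4e75_ag` (Tate classes), `MP_f569db_ag`, `MP_361a6f_ag` (numerical
equivalence, Hodge type), which treat other conjectures on one product. New here: homomorphisms between
the motives cut out by arbitrary idempotents on two products, the map `ρ` with its injectivity, the
operators between two products. Purity, the trace formula and the decomposition of the cohomology of the
`X_i` are hypotheses, as there.

helper222 (`Pool/Agent/U222/SL`); built on the library of the starting files: helper876 (`N876/TC`,
`N876/FL`), helper914 and others (`H914R2`, `W552`, `TH125/Gal`: Weil cohomology theories, operators,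
Galois actions) and the estimates of sums over hyperplane arrangements by Gauss sums (helper528 and
others). The idea of large prime degrees is due to helper231.
-/

set_option autoImplicit false

open Finset Polynomial CategoryTheory AlgebraicGeometry

universe u

namespace Pool.Agent.Results.MP_3703a7_ag.LargePrimeMotives

open Pool.Agent.H914 Pool.Agent.H914.VarClass Pool.Agent.H914.VarClass.Obj
  Pool.Agent.H914.WeilCohomology Pool.Agent.H281R3.HT Pool.Agent.TH125.Gal
  Pool.Agent.U222.SL.Mot Pool.Agent.U222.SL.Geo Pool.Agent.U222.SL

/-- **The Tate conjecture for homomorphisms between the motives of products of arbitrary varieties with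
cyclic coverings of large prime degrees.** -/
theorem result {k : Type u} [Field k] {𝒱 : VarClass k} {ops : CycleOps 𝒱}
    {W : WeilCohomology.{u, 0} ops} [IsAlgClosed W.K] {Γ : Type} [Group Γ] {χ : Γ →* W.Kˣ}
    (c : ℕ) [Fact c.Prime] (κ : Type) [Field κ] [Fintype κ] [CharP κ c] {ι : Type} [Fintype ι]
    (C : ι → Covering κ) (f lam b : ℕ) (hf : Fintype.card κ = c ^ f) {G : Set (GVar W Γ)}
    {X : ι → GVar W Γ} {Z Z' : GVar W Γ} {σ : Γ} {τ : W.K →+* ℂ} :
    (IsSystem C c lam b χ G X Z Z' σ τ →
      ∀ (L L' : List ι) (V V' : GVar W Γ), (L ++ L').Nodup → IsProductOver G X Z L V →
        IsProductOver G X Z' L' V' →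
        -- the reduction to `Z` and `Z'`: injectivity (`t = true`), surjectivity (`t = false`)
        (∀ t, TateFor t χ V V' ↔ TateFor t χ Z Z') ∧
        -- special cases
        (HomEqNum W (Z.X.prod Z'.X) → TateFor true χ V V' ∧
          (algSpan W (Z.X.prod Z'.X) = ⊤ → TateFor false χ V V'))) ∧
    -- the condition on `Z × Z'`
    (∀ (N : ℕ) (B : Set ℂ), (∀ β ∈ B, IsAlgebraic ℚ β ∧
      ∃ d : ℕ, ‖β‖ ^ 2 = (Fintype.card κ : ℝ) ^ d) →
      (∀ β ∈ B, (minpoly ℚ β).natDegree ≤ 2 * b + 1 ∨
        IsIntegral ℤ ((Fintype.card κ : ℂ) ^ lam * β / starRingEnd ℂ β)) →
      IsFewBase c (Fintype.card κ) N lam b B) :=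
  ⟨fun h _ _ _ _ hLL hV hV' => Mo.motives_main c κ C f lam b hf h hLL hV hV',
    fun _ _ hB h => isFewBase_of Fintype.one_lt_card hB h⟩

end Pool.Agent.Results.MP_3703a7_ag.LargePrimeMotives
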