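import Pool.Agent.U400.HM.Main

/-!
# The Tate conjecture for homomorphisms between the motives of `A^n × U^a`, from ONE reduction of `A`

Let `F` be a number field (or any finitely generated field), `A` an abelian variety over `F` and `U` a variety over
`F`. `V = V_ℓ(A)` is the rational Tate module of `A` and `N` is the `ℓ`-adic realization of a motive of `U`, for
instance the whole cohomology of `U`. Every motive in the tensor category generated by the motive of `A` and `N` is
(up to twists, and duals, which are direct summands as well if `N` is the motive of a smooth projective `U`) a direct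
summand of a sum of motives with the realizations `V^{⊗ s} ⊗ N^{⊗ a}`; these include all motives of the varieties
`A^n × U^a`.

Suppose that `A` and `U` have good reduction at ONE place with a residue field of `q` elements, let `γ` be the
Frobenius element there. Let the Frobenius polynomial of `A` at this place be the product of the Weil `q`-polynomials
`f i` of degrees `2 g i`. The eigenvalues of the geometric Frobenius element `γ⁻¹` on `N` should be few (at most
`2 r + 1` different conjugates; for instance, Betti numbers with sum at most `2 r + 1`), or of rank at most `r` modulo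
the numbers with a power in a number field `E`, where all `g i > r`.

Theorem. For 100 percent of the families `f` (`O (q ^ (-1 / 6) log q)` exceptions, also among the ordinary ones only)
the following holds for all `F`, `A`, `U` and `ℓ` as above, without any assumption about the endomorphisms of `A` or
other places: for all `s, t, a, b, c`, all homomorphisms `V^{⊗ s} ⊗ N^{⊗ a} → V^{⊗ t} ⊗ N^{⊗ b} (c)` for open
subgroups of the Galois group are the linear combinations of the tensor products `f₁ ⊗ f₂` of maps
`f₁ : V^{⊗ s} → V^{⊗ t}` that are products of `m = (s + t) / 2` Tate classes of degree two on `A × A`, which are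
algebraic by Faltings, with homomorphisms `f₂ : N^{⊗ a} → N^{⊗ b} (c + t - m)`; there are none if `s + t` is odd. So,
over the finite extensions of `F`, the map `ρ_ℓ` of the problem is surjective for all pairs of motives in the tensor
category generated by `h(A)` and `N` if and only if it is for the pairs in the one generated by `N`. (In
characteristic zero `ρ_ℓ` is injective by the comparison with the Betti realization.)

The same holds for the points in all boxes of all lattices of coefficient vectors (`InAllLattices`): the exceptions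
in parallelepipeds with sides `≥ B` are a proportion `O (B ^ (-1 / 3) log B)` uniformly in `q`, and for `q ≥ R` there
is a good family at distance at most `R` of every point.

The library theorem on Tate forms with values in a representation is `Pool.Agent.N166.CZ.core`; it needs the rank of
the Frobenius eigenvalues on the coefficients, here `Hom (N^{⊗ a}, N^{⊗ b})`, and gives multilinear forms. New here:
the eigenvalues of the Frobenius element on `Hom (N^{⊗ a}, N^{⊗ b})` and of all their conjugates lie in the group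
generated by those on `N` (commuting operators, `U400/HM/Eig`, `Tens`), the factorization with coefficients in a
representation (`Form`) and the passage to homomorphisms between tensor products (`Hom`).
-/

set_option autoImplicit false

namespace Pool.Agent.Results.MP_3703a7_ag.TensorTateGenericReduction

open Polynomial
open scoped TensorProduct

/-- The polynomials `f` of degree `2 g` with integral coefficients, leading coefficient one and constant term
`q ^ g`, all of whose complex roots have absolute value `√q`. -/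
def weilPolys (q g : ℕ) : Set ℤ[X] :=
  {f | f.Monic ∧ f.natDegree = 2 * g ∧ f.coeff 0 = (q : ℤ) ^ g ∧
    ∀ z : ℂ, aeval z f = 0 → ‖z‖ ^ 2 = q}

/-- The Weil polynomials whose middle coefficient is prime to `q` (those of ordinary abelian varieties). -/
def ordinaryWeilPolys (q g : ℕ) : Set ℤ[X] :=
  {f ∈ weilPolys q g | IsCoprime (f.coeff g) (q : ℤ)}

section homs

variable {k V N Γ : Type} [Field k] [AddCommGroup V] [Module k V] [AddCommGroup N] [Module k N] [Group Γ]

/-- `ω` has the properties of the Weil pairing of a polarization of `A` on `V = V_ℓ(A)`: it is alternating,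
nondegenerate and `ω (s u, s v) = χ(s) ω (u, v)`, where `χ` is the cyclotomic character. -/
def IsWeilPairing (ρ : Representation k Γ V) (χ : Γ →* k) (ω : V →ₗ[k] V →ₗ[k] k) : Prop :=
  (∀ v, ω v v = 0) ∧ (∀ u, (∀ v, ω v u = 0) → u = 0) ∧ ∀ s u v, ω (ρ s u) (ρ s v) = χ s * ω u v

/-- The representation is semisimple over all finite extensions of the base field (for `V_ℓ(A)`: Tate, Zarhin,
Faltings). -/
def SemisimpleOverExtensions (ρ : Representation k Γ V) : Prop :=
  ∀ Δ : Subgroup Γ, Δ.FiniteIndex → ∀ U : Submodule k V, (∀ s ∈ Δ, ∀ u ∈ U, ρ s u ∈ U) →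
    ∃ U' : Submodule k V, (∀ s ∈ Δ, ∀ u ∈ U', ρ s u ∈ U') ∧ IsCompl U U'

/-- The space `V^{⊗ s} ⊗ N^{⊗ a}`. -/
abbrev Mixed (k V N : Type) [Field k] [AddCommGroup V] [Module k V] [AddCommGroup N] [Module k N] (s a : ℕ) :
    Type := (⨂[k] _ : Fin s, V) ⊗[k] (⨂[k] _ : Fin a, N)

noncomputable instance Mixed.instAddCommMonoid (s a : ℕ) : AddCommMonoid (Mixed k V N s a) :=
  TensorProduct.addCommMonoid

noncomputable instance Mixed.instModule (s a : ℕ) : Module k (Mixed k V N s a) :=
  TensorProduct.instModule

/-- The action of `g` on `V^{⊗ s} ⊗ N^{⊗ a}`. -/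
noncomputable def act (ρ : Representation k Γ V) (σ : Representation k Γ N) (s a : ℕ) (g : Γ) :
    Mixed k V N s a →ₗ[k] Mixed k V N s a :=
  TensorProduct.map (PiTensorProduct.map (fun _ => ρ g)) (PiTensorProduct.map (fun _ => σ g))

/-- `f` is a homomorphism `V^{⊗ s} ⊗ N^{⊗ a} → V^{⊗ t} ⊗ N^{⊗ b} (c)` of representations of a subgroup of finite
index of `Γ`. -/
def IsTateHom (ρ : Representation k Γ V) (χ : Γ →* k) (σ : Representation k Γ N) (c : ℤ) {s t a b : ℕ}
    (f : Mixed k V N s a →ₗ[k] Mixed k V N t b) : Prop :=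
  ∃ Δ : Subgroup Γ, Δ.FiniteIndex ∧ ∀ g ∈ Δ, ∀ x, f (act ρ σ s a g x) = χ g ^ c • act ρ σ t b g (f x)

/-- `u` is a homomorphism `N^{⊗ a} → N^{⊗ b} (c)` of representations of a subgroup of finite index of `Γ`. -/
def IsTateHomOfFactor (χ : Γ →* k) (σ : Representation k Γ N) (c : ℤ) {a b : ℕ}
    (u : (⨂[k] _ : Fin a, N) →ₗ[k] (⨂[k] _ : Fin b, N)) : Prop :=
  ∃ Δ : Subgroup Γ, Δ.FiniteIndex ∧ ∀ g ∈ Δ, ∀ x,
    u (PiTensorProduct.map (fun _ => σ g) x) = χ g ^ c • PiTensorProduct.map (fun _ => σ g) (u x)

/-- `B` is a Tate class in `H^1(A) ⊗ H^1(A) (1)`: a bilinear form on `V` with `B (g x, g y) = χ(g) B (x, y)` for all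
`g` in a subgroup of finite index. -/
def IsTateForm (ρ : Representation k Γ V) (χ : Γ →* k) (B : V →ₗ[k] V →ₗ[k] k) : Prop :=
  ∃ Δ : Subgroup Γ, Δ.FiniteIndex ∧ ∀ g ∈ Δ, ∀ x y, B (ρ g x) (ρ g y) = χ g * B x y

/-- The linear form `z_1 ⊗ ... ⊗ z_t ↦ ω (z_1, y_1) * ... * ω (z_t, y_t)` on `V^{⊗ t}`. -/
noncomputable def pairing (ω : V →ₗ[k] V →ₗ[k] k) {t : ℕ} (y : Fin t → V) : (⨂[k] _ : Fin t, V) →ₗ[k] k :=
  PiTensorProduct.lift ((MultilinearMap.mkPiAlgebra k (Fin t) k).compLinearMap (fun i => ω.flip (y i)))

/-- The map `f : V^{⊗ s} → V^{⊗ t}` is, if `V^{⊗ t}` is identified with its dual space by the pairing, the product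
of `m` Tate classes `B l` of degree two, where the `s + t = 2 m` factors are distributed in some way. -/
def IsProductOfDegreeTwo (ρ : Representation k Γ V) (χ : Γ →* k) (ω : V →ₗ[k] V →ₗ[k] k) (m : ℕ) {s t : ℕ}
    (f : (⨂[k] _ : Fin s, V) →ₗ[k] (⨂[k] _ : Fin t, V)) : Prop :=
  ∃ (e : Fin m × Fin 2 ≃ Fin s ⊕ Fin t) (B : Fin m → V →ₗ[k] V →ₗ[k] k),
    (∀ l, IsTateForm ρ χ (B l)) ∧ ∀ (x : Fin s → V) (y : Fin t → V),
      pairing ω y (f (PiTensorProduct.tprod k x)) =
        ∏ l, B l (Sum.elim x y (e (l, 0))) (Sum.elim x y (e (l, 1)))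

/-- `f` is the tensor product of a product `V^{⊗ s} → V^{⊗ t}` of `m` Tate classes of degree two, `s + t = 2 m`, with
a homomorphism `N^{⊗ a} → N^{⊗ b} (c + t - m)` over a finite extension. -/
def ComesFromFactors (ρ : Representation k Γ V) (χ : Γ →* k) (ω : V →ₗ[k] V →ₗ[k] k)
    (σ : Representation k Γ N) (c : ℤ) {s t a b : ℕ} (f : Mixed k V N s a →ₗ[k] Mixed k V N t b) : Prop :=
  ∃ (m : ℕ) (f₁ : (⨂[k] _ : Fin s, V) →ₗ[k] (⨂[k] _ : Fin t, V))
    (f₂ : (⨂[k] _ : Fin a, N) →ₗ[k] (⨂[k] _ : Fin b, N)), IsProductOfDegreeTwo ρ χ ω m f₁ ∧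
      IsTateHomOfFactor χ σ (c + t - m) f₂ ∧ f = TensorProduct.map f₁ f₂

/-- For all `s, t, a, b, c`: all homomorphisms `V^{⊗ s} ⊗ N^{⊗ a} → V^{⊗ t} ⊗ N^{⊗ b} (c)` over finite extensions are
linear combinations of the tensor products of products `V^{⊗ s} → V^{⊗ t}` of `m` Tate classes of degree two with
homomorphisms `N^{⊗ a} → N^{⊗ b} (c + t - m)` over finite extensions. (If `s + t` is odd, they are `0`.) -/
def HomsFromFactors (ρ : Representation k Γ V) (χ : Γ →* k) (ω : V →ₗ[k] V →ₗ[k] k)
    (σ : Representation k Γ N) : Prop :=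
  ∀ (s t a b : ℕ) (c : ℤ) (f : Mixed k V N s a →ₗ[k] Mixed k V N t b), IsTateHom ρ χ σ c f →
    f ∈ Submodule.span k {f' : Mixed k V N s a →ₗ[k] Mixed k V N t b | ComesFromFactors ρ χ ω σ c f'}

/-- `T` is killed by a nonzero rational polynomial with at most `d` different complex roots, all of whose squared
absolute values are integral powers of `q` (for `T` the geometric Frobenius element on the cohomology of a variety
this holds if its characteristic polynomial is rational and the cohomology has dimension at most `d`). -/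
def FewEigenvalues [CharZero k] (q d : ℕ) (T : Module.End k N) : Prop :=
  ∃ P : ℚ[X], P ≠ 0 ∧ aeval T (P.map (algebraMap ℚ k)) = 0 ∧ (P.rootSet ℂ).ncard ≤ d ∧
    ∀ z : ℂ, aeval z P = 0 → ∃ w : ℤ, ‖z‖ ^ 2 = (q : ℝ) ^ w

/-- The eigenvalues of `T` and all their conjugates over `ℚ` lie, up to powers, in a group generated by the nonzero
elements of the number field `E` and `r` numbers. -/
def SmallRank [CharZero k] (E : IntermediateField ℚ ℂ) (r : ℕ) (T : Module.End k N) : Prop :=
  ∃ P : ℚ[X], P ≠ 0 ∧ aeval T (P.map (algebraMap ℚ k)) = 0 ∧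
    ∃ u : Fin r → ℂ, (∀ j, u j ≠ 0) ∧ ∀ ρ : ℂ, aeval ρ P = 0 →
      ∃ (N : ℕ) (y : ℂ) (m : Fin r → ℤ), 0 < N ∧ y ∈ E ∧ y ≠ 0 ∧ ρ ^ N = y * ∏ j, u j ^ m j

end homs

/-- For all abelian varieties `A` (over all fields, with all endomorphisms) such that the characteristic polynomial
of ONE Frobenius element `γ` is the product of the `f i`, and all motives `N` such that the geometric Frobenius
element `γ⁻¹` has at most `2 r + 1` eigenvalues on `N`, or eigenvalues of rank at most `r` over `E`: all
homomorphisms between the motives `V^{⊗ s} ⊗ N^{⊗ a} (c)` come from the factors. -/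
def HomsForProducts {I : Type} [Fintype I] (E : IntermediateField ℚ ℂ) (q r : ℕ) (f : I → ℤ[X]) : Prop :=
  ∀ (k : Type) [Field k] [CharZero k] (V : Type) [AddCommGroup V] [Module k V]
    [FiniteDimensional k V] (Γ : Type) [Group Γ] (ρ : Representation k Γ V) (χ : Γ →* k)
    (ω : V →ₗ[k] V →ₗ[k] k), IsWeilPairing ρ χ ω → SemisimpleOverExtensions ρ →
    ∀ γ : Γ, χ γ = q → (ρ γ).charpoly = ∏ i, (f i).map (Int.castRingHom k) →
    ∀ (N : Type) [AddCommGroup N] [Module k N] [FiniteDimensional k N] (σ : Representation k Γ N),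
      (SmallRank E r (σ γ⁻¹) ∨ FewEigenvalues q (2 * r + 1) (σ γ⁻¹)) → HomsFromFactors ρ χ ω σ

/-- The property `P q f` of families of polynomials holds for 100 percent of the families of Weil `q`-polynomials of
degrees `2 g i` (or of any subsets `S i` of them which contain the ordinary ones): the exceptions are a proportion
`O (q ^ (-1 / 6) log q)`. -/
def ForAlmostAllClasses {I : Type} [Fintype I] (g : I → ℕ) (P : ℕ → (I → ℤ[X]) → Prop) : Prop :=
  ∃ C : ℝ, ∀ q : ℕ, IsPrimePow q → ∀ S : I → Set ℤ[X],
    (∀ i, ordinaryWeilPolys q (g i) ⊆ S i ∧ S i ⊆ weilPolys q (g i)) →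
    (∀ i, (S i).Finite ∧ (S i).Nonempty) ∧
    ({f : I → ℤ[X] | (∀ i, f i ∈ S i) ∧ ¬ P q f}.ncard : ℝ) ≤
      C * (Real.log q * (q : ℝ) ^ (-(1 / 6) : ℝ)) * ∏ i, ((S i).ncard : ℝ)

/-- For `g i > r` and a number field `E`, the property `HomsForProducts E q r f` holds for 100 percent of the families
`f` of Weil `q`-polynomials of degrees `2 g i`, and for almost all points in all large boxes of all lattices of
coefficient vectors. -/
theorem result {I : Type} [Fintype I] [DecidableEq I] (g : I → ℕ) (r : ℕ) (hr : ∀ i, r < g i)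
    (E : IntermediateField ℚ ℂ) [FiniteDimensional ℚ E] :
    ForAlmostAllClasses g (fun q f => HomsForProducts E q r f) ∧
      Pool.Agent.N578.LB.InAllLattices g (fun q f => HomsForProducts E q r f) := by
  have key : ∀ (q : ℕ) (f : I → ℤ[X]), Pool.Agent.U400.HM.Prop2 E q r f → HomsForProducts E q r f := by
    intro q f h k _ _ V _ _ _ Γ _ ρ χ ω hω hss γ hχ hγ N _ _ _ σ hσ s t a b c F hF
    exact h k V Γ ρ χ ω hω.1 hω.2.1 hω.2.2 hss γ hχ hγ N σ hσ a b s t c F hF
  constructor
  · obtain ⟨C, hC⟩ := Pool.Agent.U400.HM.count g r hr E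
    refine ⟨C, fun q hq S hS => ⟨(hC q hq S hS).1, ?_⟩⟩
    refine le_trans ?_ (hC q hq S hS).2
    have hfin : {f : I → ℤ[X] | ∀ i, f i ∈ S i}.Finite := by
      have h1 := Set.Finite.pi' (fun i => ((hC q hq S hS).1 i).1)
      exact h1
    have h2 : {f : I → ℤ[X] | (∀ i, f i ∈ S i) ∧ ¬ HomsForProducts E q r f}.ncard ≤
        {f : I → ℤ[X] | (∀ i, f i ∈ S i) ∧ ¬ Pool.Agent.U400.HM.Prop2 E q r f}.ncard :=
      Set.ncard_le_ncard (fun f hf => ⟨hf.1, fun h => hf.2 (key q f h)⟩)
        (hfin.subset fun f hf => hf.1)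
    exact_mod_cast h2
  · exact Pool.Agent.N578.LB.inAllLattices (Pool.Agent.W484.TB.splitPrimes E)
      (Pool.Agent.W484.TB.dense_splitPrimes E) g (fun i => (Nat.zero_le r).trans_lt (hr i)) _
      (fun q hq x hx => key q _ (Pool.Agent.U400.HM.prop2_of_good g E r hr q hq x hx))

end Pool.Agent.Results.MP_3703a7_ag.TensorTateGenericReduction
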